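import Pool.Agent.P.MP_f1a348_lc.GI.ABasic

/-!
The class of subgroups whose composition factors are generated by `d` elements, and the
specification of the isomorphism test for this class.
-/

namespace Pool.Agent.P.MP_f1a348_lc.FA

open GI Pool.Agent.Lib.Helper47

section
variable {U V : Type} [Group U] [Group V]

/-- `B` is a normal subgroup of `A` -/
def Nrm (B A : Subgroup U) : Prop := B ≤ A ∧ ∀ a ∈ A, ∀ b ∈ B, a * b * a⁻¹ ∈ B

/-- subnormal subgroups of `Z` -/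
inductive Sub (Z : Subgroup U) : Subgroup U → Prop
  | top : Sub Z Z
  | step {A B : Subgroup U} : Sub Z A → Nrm B A → Sub Z B

/-- `B` is a maximal proper normal subgroup of `A` -/
def MaxN (B A : Subgroup U) : Prop :=
  Nrm B A ∧ B ≠ A ∧ ∀ C, B ≤ C → Nrm C A → C = B ∨ C = A

/-- all composition factors of `Z` are generated by `d` elements -/
def Cls (d : ℕ) (Z : Subgroup U) : Prop :=
  ∀ A B, Sub Z A → MaxN B A → ∃ l : List U, l.length = d ∧ (∀ x ∈ l, x ∈ A) ∧ B ⊔ gen l = A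

theorem Nrm.refl (A : Subgroup U) : Nrm A A :=
  ⟨le_rfl, fun _ ha _ hb => A.mul_mem (A.mul_mem ha hb) (A.inv_mem ha)⟩

theorem Nrm.bot (A : Subgroup U) : Nrm ⊥ A :=
  ⟨bot_le, fun a _ b hb => by rw [Subgroup.mem_bot.1 hb]; simp⟩

theorem Sub.le {Z A : Subgroup U} (h : Sub Z A) : A ≤ Z := by
  induction h with
  | top => exact le_rfl
  | step _ h ih => exact h.1.trans ih

theorem Sub.trans {Z A B : Subgroup U} (h : Sub Z A) (h' : Sub A B) : Sub Z B := by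
  induction h' with
  | top => exact h
  | step _ h1 ih => exact ih.step h1

theorem Nrm.sub {Z A : Subgroup U} (h : Nrm A Z) : Sub Z A := Sub.top.step h

theorem Cls.mono {d d' : ℕ} {Z : Subgroup U} (h : Cls d Z) (hd : d ≤ d') : Cls d' Z := by
  intro A B hA hB
  obtain ⟨l, h1, h2, h3⟩ := h A B hA hB
  obtain ⟨m, m1, m2, m3⟩ := exists_pad l 1 (h1 ▸ hd)
  have hm : ∀ x ∈ m, x ∈ A := fun x hx => (m3 x hx).elim (h2 x) (fun e => e ▸ A.one_mem)
  exact ⟨m, m1, hm, le_antisymm (sup_le hB.1.1 (gen_le.2 hm))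
    (h3.symm.le.trans (sup_le_sup_left (gen_mono m2) _))⟩

/-- subnormal subgroups stay in the class -/
theorem Cls.sub {d : ℕ} {Z A : Subgroup U} (h : Cls d Z) (hA : Sub Z A) : Cls d A :=
  fun _ _ h1 h2 => h _ _ (hA.trans h1) h2

/-- simple subnormal subgroups are generated by `d` elements -/
theorem Cls.atom {d : ℕ} {Z T : Subgroup U} (h : Cls d Z) (hT : Sub Z T) (hs : MaxN ⊥ T) :
    ∃ l : List U, l.length = d ∧ gen l = T := by
  obtain ⟨l, h1, _, h3⟩ := h T ⊥ hT hs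
  exact ⟨l, h1, by simpa using h3⟩

/-- the class is closed under homomorphic images -/
theorem Cls.image {d : ℕ} {Z : Subgroup U} {W : Subgroup V} (f : U → V)
    (hf : ∀ x ∈ Z, ∀ y ∈ Z, f (x * y) = f x * f y) (hW : ∀ w, w ∈ W ↔ ∃ x ∈ Z, f x = w)
    (h : Cls d Z) : Cls d W := by
  let φ : Z →* V := MonoidHom.mk' (fun x => f x) (fun x y => hf x x.2 y y.2)
  have hi : ∀ x ∈ Z, f x⁻¹ = (f x)⁻¹ := fun x hx => φ.map_inv ⟨x, hx⟩
  have hc : ∀ a ∈ Z, ∀ b ∈ Z, f (a * b * a⁻¹) = f a * f b * (f a)⁻¹ := fun a ha b hb => by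
    rw [hf _ (Z.mul_mem ha hb) _ (Z.inv_mem ha), hf a ha b hb, hi a ha]
  let P : Subgroup V → Subgroup U := fun C => (C.comap φ).map Z.subtype
  have hP : ∀ C x, x ∈ P C ↔ x ∈ Z ∧ f x ∈ C := fun C x =>
    ⟨fun ⟨y, hy, e⟩ => e ▸ ⟨y.2, hy⟩, fun hx => ⟨⟨x, hx.1⟩, hx.2, rfl⟩⟩
  let Q : Subgroup U → Subgroup V := fun C => (C.subgroupOf Z).map φ
  have hQ : ∀ C w, w ∈ Q C ↔ ∃ x ∈ C, x ∈ Z ∧ f x = w := fun C w =>
    ⟨fun ⟨y, hy, e⟩ => ⟨y, hy, y.2, e⟩, fun ⟨x, h1, h2, e⟩ => ⟨⟨x, h2⟩, h1, e⟩⟩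
  have nP : ∀ B A, Nrm B A → Nrm (P B) (P A) := fun B A hn =>
    ⟨fun x hx => (hP _ _).2 ⟨((hP _ _).1 hx).1, hn.1 ((hP _ _).1 hx).2⟩, fun a ha b hb => by
      rw [hP] at ha hb ⊢
      exact ⟨Z.mul_mem (Z.mul_mem ha.1 hb.1) (Z.inv_mem ha.1), by
        rw [hc a ha.1 b hb.1]; exact hn.2 _ ha.2 _ hb.2⟩⟩
  have sP : ∀ A, Sub W A → Sub Z (P A) := fun A hA => by
    induction hA with
    | top =>
      have : P W = Z := Subgroup.ext fun x => by
        rw [hP]; exact ⟨fun hx => hx.1, fun hx => ⟨hx, (hW _).2 ⟨x, hx, rfl⟩⟩⟩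
      rw [this]; exact Sub.top
    | step _ h1 ih => exact ih.step (nP _ _ h1)
  intro A B hA hB
  have lift : ∀ a ∈ A, ∃ x ∈ Z, f x = a := fun a ha => (hW a).1 (hA.le ha)
  have hM : MaxN (P B) (P A) := by
    refine ⟨nP _ _ hB.1, fun e => hB.2.1 ?_, fun C hC hn => ?_⟩
    · refine le_antisymm hB.1.1 fun a ha => ?_
      obtain ⟨x, hx, rfl⟩ := lift a ha
      exact ((hP _ _).1 (e.symm ▸ (hP A x).2 ⟨hx, ha⟩)).2
    · have key : ∀ x ∈ Z, f x ∈ Q C → x ∈ C := fun x hx hq => by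
        obtain ⟨y, hy, hyZ, e⟩ := (hQ _ _).1 hq
        have : y⁻¹ * x ∈ P B := (hP _ _).2 ⟨Z.mul_mem (Z.inv_mem hyZ) hx, by
          rw [hf _ (Z.inv_mem hyZ) _ hx, hi y hyZ, e]; simp⟩
        simpa using C.mul_mem hy (hC this)
      have hBQ : B ≤ Q C := fun b hb => by
        obtain ⟨x, hx, rfl⟩ := lift b (hB.1.1 hb)
        exact (hQ _ _).2 ⟨x, hC ((hP _ _).2 ⟨hx, hb⟩), hx, rfl⟩
      have hQn : Nrm (Q C) A := ⟨fun w hw => by
        obtain ⟨x, hx, _, rfl⟩ := (hQ _ _).1 hw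
        exact ((hP _ _).1 (hn.1 hx)).2, fun a ha w hw => by
        obtain ⟨x, hx, hxZ, rfl⟩ := (hQ _ _).1 hw
        obtain ⟨y, hy, rfl⟩ := lift a ha
        exact (hQ _ _).2 ⟨_, hn.2 y ((hP _ _).2 ⟨hy, ha⟩) x hx,
          Z.mul_mem (Z.mul_mem hy hxZ) (Z.inv_mem hy), hc y hy x hxZ⟩⟩
      have hCZ : ∀ x ∈ C, x ∈ Z := fun x hx => ((hP _ _).1 (hn.1 hx)).1
      refine (hB.2.2 _ hBQ hQn).imp (fun e => le_antisymm (fun x hx => ?_) hC)
        (fun e => le_antisymm hn.1 fun x hx => ?_)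
      · exact (hP _ _).2 ⟨hCZ x hx, e ▸ (hQ _ _).2 ⟨x, hx, hCZ x hx, rfl⟩⟩
      · exact key x ((hP _ _).1 hx).1 (e.symm ▸ ((hP _ _).1 hx).2)
  obtain ⟨l, h1, h2, h3⟩ := h (P A) (P B) (sP A hA) hM
  have hl : ∀ y ∈ l.map f, y ∈ A := fun y hy => by
    obtain ⟨x, hx, rfl⟩ := List.mem_map.1 hy
    exact ((hP _ _).1 (h2 x hx)).2
  refine ⟨l.map f, by simpa using h1, hl, le_antisymm (sup_le hB.1.1 (gen_le.2 hl)) ?_⟩
  intro a ha
  obtain ⟨x, hx, rfl⟩ := lift a ha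
  have : P B ⊔ gen l ≤ P (B ⊔ gen (l.map f)) := sup_le
    (fun y hy => (hP _ _).2 ⟨((hP _ _).1 hy).1, Subgroup.mem_sup_left ((hP _ _).1 hy).2⟩)
    (gen_le.2 fun y hy => (hP _ _).2 ⟨((hP _ _).1 (h2 y hy)).1,
      Subgroup.mem_sup_right (mem_gen (List.mem_map_of_mem hy))⟩)
  exact ((hP _ _).1 (this (h3.symm ▸ (hP _ _).2 ⟨hx, ha⟩))).2

/-- the class is closed under isomorphisms -/
theorem Cls.of_equiv {d : ℕ} {Z : Subgroup U} {W : Subgroup V} (e : Z ≃* W) (h : Cls d Z) :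
    Cls d W := by
  classical
  refine h.image (fun x => if hx : x ∈ Z then (e ⟨x, hx⟩ : V) else 1) (fun x hx y hy => ?_)
    (fun w => ⟨fun hw => ⟨e.symm ⟨w, hw⟩, (e.symm ⟨w, hw⟩).2, ?_⟩, fun ⟨x, hx, h1⟩ => ?_⟩)
  · rw [dif_pos hx, dif_pos hy, dif_pos (Z.mul_mem hx hy), ← Subgroup.coe_mul, ← map_mul]
    rfl
  · simp
  · rw [← h1, dif_pos hx]; exact (e ⟨x, hx⟩).2
end

/-- the arguments of the isomorphism test: padding, `d` in unary, the two groups -/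
abbrev Arg : Type := List Unit × List Unit × List (FP ℕ) × List (FP ℕ)

/-- a polynomial-time program deciding isomorphism if the first group lies in the class -/
def IsoProg (K : ℕ) (iso : List Unit → List Unit → List (FP ℕ) → List (FP ℕ) → Bool) : Prop :=
  PT (fun p : Arg => iso p.1 p.2.1 p.2.2.1 p.2.2.2) ∧
    ∀ (pad ud : List Unit) (el el' : List (FP ℕ)) (Z Z' : Subgroup (FP ℕ)), Rep el Z →
      Rep el' Z' → el'.length = el.length → Cls ud.length Z →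
      (el.length + 1) ^ (K * (ud.length + 1)) ≤ pad.length →
      (iso pad ud el el' = true ↔ Nonempty (Z ≃* Z'))

/-- a polynomial-time program whose output is an isomorphism whenever the groups are isomorphic
and the first lies in the class -/
def IsoCand (K : ℕ) (cand : List Unit → List Unit → List (FP ℕ) → List (FP ℕ) → FP (FP ℕ)) :
    Prop :=
  PT (fun p : Arg => cand p.1 p.2.1 p.2.2.1 p.2.2.2) ∧
    ∀ (pad ud : List Unit) (el el' : List (FP ℕ)) (Z Z' : Subgroup (FP ℕ)), Rep el Z →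
      Rep el' Z' → Nonempty (Z ≃* Z') → Cls ud.length Z →
      (el.length + 1) ^ (K * (ud.length + 1)) ≤ pad.length →
      (∀ x ∈ Z, (cand pad ud el el').app x ∈ Z') ∧ ∀ x ∈ Z, ∀ y ∈ Z,
        (cand pad ud el el').app (x * y) = (cand pad ud el el').app x * (cand pad ud el el').app y

end Pool.Agent.P.MP_f1a348_lc.FA
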