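import Pool.Agent.P.MP_f1a348_lc.AL.All
import Pool.Agent.P.MP_f1a348_lc.PS.All
import Pool.Agent.P.MP_f1a348_lc.AF.All
import Pool.Agent.P.MP_f1a348_lc.AF.Wrap
import Pool.Agent.P.MP_f1a348_lc.CE.All
import Pool.Agent.P.MP_f1a348_lc.GF.All

/-!
The isomorphism test for groups whose composition factors have few generators.
-/

namespace Pool.Agent.P.MP_f1a348_lc.FA

open Pool.Agent.P.MP_f1a348_lc.UP.CU

theorem ext_all (p n : ℕ) [Fact p.Prime] : AF.Ext p n :=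
  ⟨CE.a_ADM p n, CE.a_PERF p n, CE.a_SPAN p n, CE.a_ABEL p n, CE.a_IDX p n, CE.a_ENGA p n,
    CE.a_LIFK p n, CE.a_LIFT p n, CE.a_DEG p n, CE.a_TF3 p n, UP.GF.a_QFIND p n, UP.GF.a_QGEN p n,
    CE.a_CW p n, CE.a_HP p n⟩

theorem isoProg : ∃ K iso, IsoProg K iso :=
  AL.isoProg PS.ps_ok PS.ps_pt AF.aff0 _ AF.crt
    (AF.aff_ok (fun p n _ => AF.a_QSTART p n (ext_all p n))
      fun p n _ => AF.a_QSOLVE p n (ext_all p n)) AF.aff_pt

end Pool.Agent.P.MP_f1a348_lc.FA
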