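import Pool.Agent.P.MP_f1a348_lc.FA.Cls

/-!
The class can be tested along one composition series.
-/

namespace Pool.Agent.P.MP_f1a348_lc.FA

open GI

variable {U : Type} [Group U]

/-- conjugation by `a` keeps `D` -/
def Cj (a : U) (D : Subgroup U) : Prop := ∀ b ∈ D, a * b * a⁻¹ ∈ D

theorem Cj.sup {a : U} {C B : Subgroup U} (h : ∀ b ∈ C, a * b * a⁻¹ ∈ C ⊔ B)
    (h' : ∀ b ∈ B, a * b * a⁻¹ ∈ C ⊔ B) : Cj a (C ⊔ B) :=
  (sup_le h h' : C ⊔ B ≤ (C ⊔ B).comap (MulAut.conj a).toMonoidHom)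

theorem Cj.gen {a : U} {l : List U} (h : ∀ b ∈ l, a * b * a⁻¹ ∈ gen l) : Cj a (gen l) :=
  (gen_le.2 h : GI.gen l ≤ (GI.gen l).comap (MulAut.conj a).toMonoidHom)

theorem cj_of_mem {a : U} {D : Subgroup U} (h : a ∈ D) : Cj a D := (Nrm.refl D).2 a h

theorem cj_sup {X Y D : Subgroup U} (hX : ∀ a ∈ X, Cj a D) (hY : ∀ a ∈ Y, Cj a D) :
    ∀ a ∈ X ⊔ Y, Cj a D := by
  let N : Subgroup U :=
    { carrier := {a | Cj a D ∧ Cj a⁻¹ D}
      one_mem' := ⟨fun b hb => by simpa using hb, fun b hb => by simpa using hb⟩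
      mul_mem' := fun {a c} ha hc =>
        ⟨fun b hb => by simpa [mul_assoc] using ha.1 _ (hc.1 b hb),
          fun b hb => by simpa [mul_assoc] using hc.2 _ (ha.2 b hb)⟩
      inv_mem' := fun {a} ha => ⟨ha.2, by simpa using ha.1⟩ }
  have : X ⊔ Y ≤ N := sup_le (fun a ha => ⟨hX a ha, hX _ (X.inv_mem ha)⟩)
    (fun a ha => ⟨hY a ha, hY _ (Y.inv_mem ha)⟩)
  exact fun a ha => (this ha).1

theorem mem_sup_nrm {A B C : Subgroup U} (hB : Nrm B A) (hC : C ≤ A) {x : U} (hx : x ∈ C ⊔ B) :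
    ∃ c ∈ C, c⁻¹ * x ∈ B := by
  let N : Subgroup U :=
    { carrier := {x | ∃ c ∈ C, c⁻¹ * x ∈ B}
      one_mem' := ⟨1, C.one_mem, by simp⟩
      mul_mem' := fun {x y} ⟨c, hc, hx⟩ ⟨e, he, hy⟩ => ⟨c * e, C.mul_mem hc he, by
        simpa [mul_assoc] using B.mul_mem (hB.2 _ (A.inv_mem (hC he)) _ hx) hy⟩
      inv_mem' := fun {x} ⟨c, hc, hx⟩ => ⟨c⁻¹, C.inv_mem hc, by
        simpa [mul_assoc] using hB.2 _ (hC hc) _ (B.inv_mem hx)⟩ }
  have : C ⊔ B ≤ N := sup_le (fun c hc => ⟨c, hc, by simp⟩)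
    (fun b hb => ⟨1, C.one_mem, by simpa using hb⟩)
  exact this hx

theorem Nrm.inf {B A M Z : Subgroup U} (h : Nrm B A) (hM : Nrm M Z) (hA : A ≤ Z) :
    Nrm (B ⊓ M) A :=
  ⟨inf_le_left.trans h.1, fun a ha b hb => ⟨h.2 a ha b hb.1, hM.2 a (hA ha) b hb.2⟩⟩

theorem Nrm.sup {B C A : Subgroup U} (h : Nrm B A) (h' : Nrm C A) : Nrm (B ⊔ C) A :=
  ⟨sup_le h.1 h'.1, fun a ha => Cj.sup (fun b hb => Subgroup.mem_sup_left (h.2 a ha b hb))
    (fun b hb => Subgroup.mem_sup_right (h'.2 a ha b hb))⟩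

theorem Sub.inf {A S M : Subgroup U} (h : Sub A S) (hM : M ≤ A) : Sub M (S ⊓ M) := by
  induction h with
  | top => rw [inf_eq_right.2 hM]; exact Sub.top
  | step _ h1 ih =>
    exact ih.step ⟨inf_le_inf_right _ h1.1, fun a ha b hb =>
      ⟨h1.2 a ha.1 b hb.1, (Nrm.refl M).2 a ha.2 b hb.2⟩⟩

theorem Sub.le_or {A S M : Subgroup U} (h : Sub A S) (hM : MaxN M A) : S ≤ M ∨ S ⊔ M = A := by
  induction h with
  | top => exact Or.inr (sup_eq_left.2 hM.1.1)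
  | @step S S' hS h1 ih =>
    rcases ih with ih | ih
    · exact Or.inl (h1.1.trans ih)
    · have hn : Nrm (S' ⊔ M) A := ⟨sup_le (h1.1.trans hS.le) hM.1.1, ih ▸ cj_sup
        (fun a ha => Cj.sup (fun b hb => Subgroup.mem_sup_left (h1.2 a ha b hb))
          (fun b hb => Subgroup.mem_sup_right (hM.1.2 a (hS.le ha) b hb)))
        (fun a ha => cj_of_mem (Subgroup.mem_sup_right ha))⟩
      exact (hM.2.2 _ le_sup_right hn).imp (fun e => le_sup_left.trans e.le) id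

theorem cls_bot (d : ℕ) : Cls d (⊥ : Subgroup U) := fun _ _ hA hB =>
  (hB.2.1 (le_antisymm hB.1.1 (hA.le.trans bot_le))).elim

/-- one step up a composition series -/
theorem Cls.up {d : ℕ} {M A : Subgroup U} (hM : MaxN M A) {l : List U} (h1 : l.length = d)
    (h2 : ∀ x ∈ l, x ∈ A) (h3 : M ⊔ gen l = A) (h : Cls d M) : Cls d A := by
  intro S B hS hB
  have nI : Nrm (S ⊓ M) S := (Nrm.refl S).inf hM.1 hS.le
  rcases hB.2.2 _ le_sup_right (nI.sup hB.1) with e | e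
  · have hI : S ⊓ M ≤ B := e ▸ le_sup_left
    have hSM : S ⊔ M = A := (hS.le_or hM).resolve_left fun hc =>
      hB.2.1 (le_antisymm hB.1.1 ((le_inf le_rfl hc).trans hI))
    have : ∀ x ∈ l, ∃ c ∈ S, c⁻¹ * x ∈ M := fun x hx =>
      mem_sup_nrm hM.1 hS.le (hSM.symm ▸ h2 x hx)
    choose! c hc hc' using this
    have hl : ∀ y ∈ l.map c, y ∈ S := fun y hy => by
      obtain ⟨x, hx, rfl⟩ := List.mem_map.1 hy
      exact hc x hx
    refine ⟨l.map c, by simpa using h1, hl, le_antisymm (sup_le hB.1.1 (gen_le.2 hl)) ?_⟩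
    intro s hs
    have h4 : A ≤ gen (l.map c) ⊔ M := h3 ▸ sup_le le_sup_right (gen_le.2 fun x hx => by
      simpa using Subgroup.mul_mem _
        (Subgroup.mem_sup_left (mem_gen (List.mem_map_of_mem (f := c) hx)))
        (Subgroup.mem_sup_right (hc' x hx)))
    obtain ⟨g, hg, hg'⟩ := mem_sup_nrm hM.1 ((gen_le.2 hl).trans hS.le) (h4 (hS.le hs))
    have h5 : g⁻¹ * s ∈ B := hI ⟨S.mul_mem (S.inv_mem (gen_le.2 hl hg)) hs, hg'⟩
    simpa using Subgroup.mul_mem _ (Subgroup.mem_sup_right hg) (Subgroup.mem_sup_left h5)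
  · have hmax : MaxN (B ⊓ M) (S ⊓ M) := by
      refine ⟨⟨inf_le_inf_right _ hB.1.1, fun a ha b hb =>
        ⟨hB.1.2 a ha.1 b hb.1, (Nrm.refl M).2 a ha.2 b hb.2⟩⟩, fun e' => hB.2.1 ?_,
        fun C hC hn => ?_⟩
      · exact le_antisymm hB.1.1 (e ▸ sup_le (e' ▸ inf_le_left) le_rfl)
      · have hCS : C ≤ S := hn.1.trans inf_le_left
        have hn' : Nrm (C ⊔ B) S := ⟨sup_le hCS hB.1.1, e ▸ cj_sup
          (fun a ha => Cj.sup (fun b hb => Subgroup.mem_sup_left (hn.2 a ha b hb))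
            (fun b hb => Subgroup.mem_sup_right (hB.1.2 a ha.1 b hb)))
          (fun a ha => cj_of_mem (Subgroup.mem_sup_right ha))⟩
        refine (hB.2.2 _ le_sup_right hn').imp (fun e1 => le_antisymm ?_ hC)
          (fun e1 => le_antisymm hn.1 fun x hx => ?_)
        · exact le_inf (e1 ▸ le_sup_left) (hn.1.trans inf_le_right)
        · obtain ⟨c, hc, hc'⟩ := mem_sup_nrm hB.1 hCS (e1.symm ▸ hx.1)
          simpa using C.mul_mem hc (hC ⟨hc', M.mul_mem (M.inv_mem (hn.1 hc).2) hx.2⟩)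
    obtain ⟨m, m1, m2, m3⟩ := h _ _ (hS.inf hM.1.1) hmax
    refine ⟨m, m1, fun x hx => (m2 x hx).1,
      le_antisymm (sup_le hB.1.1 (gen_le.2 fun x hx => (m2 x hx).1)) ?_⟩
    exact e ▸ sup_le (m3 ▸ sup_le_sup_right inf_le_left _) le_sup_left

end Pool.Agent.P.MP_f1a348_lc.FA
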