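import Pool.Agent.P.MP_f1a348_lc.FA.Defs
import Pool.Agent.P.MP_f1a348_lc.FA.JH

/-!
The two forms of the class agree; solvable groups are the case `d = 1`.
-/

namespace Pool.Agent.P.MP_f1a348_lc.FA

open GI

theorem cls_of_le {U : Type} [Group U] {d : ℕ} {Z : Subgroup U} (h : ∀ A B, Sub Z A → MaxN B A →
    ∃ l : List U, l.length ≤ d ∧ (∀ x ∈ l, x ∈ A) ∧ A ≤ B ⊔ gen l) : Cls d Z := by
  intro A B hA hB
  obtain ⟨l, h1, h2, h3⟩ := h A B hA hB
  obtain ⟨m, m1, m2, m3⟩ := exists_pad l 1 h1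
  have hm : ∀ x ∈ m, x ∈ A := fun x hx => (m3 x hx).elim (h2 x) (fun e => e ▸ A.one_mem)
  exact ⟨m, m1, hm, le_antisymm (sup_le hB.1.1 (gen_le.2 hm))
    (h3.trans (sup_le_sup_left (gen_mono m2) _))⟩

theorem cls_card {U : Type} [Group U] [DecidableEq U] {el : List U} {Z : Subgroup U}
    (h : Rep el Z) : Cls el.length Z := by
  classical
  refine cls_of_le fun A B hA _ => ⟨el.filter (fun x => decide (x ∈ A)), List.length_filter_le _ _,
    fun x hx => by simpa using (List.mem_filter.1 hx).2, fun x hx => Subgroup.mem_sup_right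
      (mem_gen (List.mem_filter.2 ⟨(h.mem x).2 (hA.le hx), by simpa using hx⟩))⟩

variable {G : Type} [Group G]

theorem Nrm.normal {B A : Subgroup G} (h : Nrm B A) : (B.subgroupOf A).Normal :=
  ⟨fun b hb a => h.2 a a.2 b hb⟩

theorem Sub.isSubnormal {A : Subgroup G} (h : Sub ⊤ A) : A.IsSubnormal := by
  induction h with
  | top => exact .top
  | step _ h1 ih => exact .step _ _ h1.1 ih h1.normal

theorem MaxN.simple {B A : Subgroup G} (h : MaxN B A) [(B.subgroupOf A).Normal] :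
    IsSimpleGroup (A ⧸ B.subgroupOf A) := by
  have : Nontrivial (A ⧸ B.subgroupOf A) := QuotientGroup.nontrivial_iff.2 fun e =>
    h.2.1 (le_antisymm h.1.1 (Subgroup.subgroupOf_eq_top.1 e))
  refine ⟨fun N hN => ?_⟩
  let C : Subgroup G := (N.comap (QuotientGroup.mk' _)).map A.subtype
  have hC : ∀ x : A, (x : G) ∈ C ↔ (x : A ⧸ B.subgroupOf A) ∈ N := fun x =>
    ⟨fun ⟨y, hy, e⟩ => (Subtype.ext e : y = x) ▸ hy, fun hx => ⟨x, hx, rfl⟩⟩
  have h1 : B ≤ C := fun b hb => (hC ⟨b, h.1.1 hb⟩).2 (by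
    rw [(QuotientGroup.eq_one_iff _).2 (by exact hb)]; exact N.one_mem)
  have h2 : Nrm C A := by
    refine ⟨Subgroup.map_subtype_le _, fun a ha b ⟨y, hy, e⟩ => ?_⟩
    subst e
    refine (hC (⟨a, ha⟩ * y * ⟨a, ha⟩⁻¹)).2 ?_
    rw [QuotientGroup.mk_mul, QuotientGroup.mk_mul, QuotientGroup.mk_inv]
    exact hN.conj_mem _ hy _
  refine (h.2.2 C h1 h2).imp (fun e => eq_bot_iff.2 fun q hq => ?_)
    (fun e => eq_top_iff.2 fun q _ => ?_)
  · obtain ⟨x, rfl⟩ := QuotientGroup.mk_surjective q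
    exact (QuotientGroup.eq_one_iff _).2 (show (x : G) ∈ B from e ▸ (hC x).2 hq)
  · obtain ⟨x, rfl⟩ := QuotientGroup.mk_surjective q
    exact (hC x).1 (e.symm ▸ x.2)

theorem FactorsGen.cls_top {d : ℕ} (h : FactorsGen d G) : Cls d (⊤ : Subgroup G) := by
  refine cls_of_le fun A B hA hB => ?_
  have := hB.1.normal
  obtain ⟨s, s1, s2⟩ := h A hA.isSubnormal (B.subgroupOf A) hB.simple
  refine ⟨s.toList.map (fun q => (q.out : A)), by simpa using s1, fun x hx => ?_, fun a ha => ?_⟩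
  · obtain ⟨q, _, rfl⟩ := List.mem_map.1 hx
    exact q.out.2
  · set D := B ⊔ gen (s.toList.map (fun q => ((q.out : A) : G))) with hD
    have h1 : Subgroup.closure (s : Set (A ⧸ B.subgroupOf A)) ≤
        (D.subgroupOf A).map (QuotientGroup.mk' _) := (Subgroup.closure_le _).2 fun q hq =>
      ⟨q.out, Subgroup.mem_sup_right (mem_gen (List.mem_map.2
        ⟨q, Finset.mem_toList.2 hq, rfl⟩)), q.out_eq⟩
    obtain ⟨x, hx, e⟩ := h1 (s2 ▸ Subgroup.mem_top ((⟨a, ha⟩ : A) : A ⧸ B.subgroupOf A))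
    have h2 : (x : G)⁻¹ * a ∈ B := (QuotientGroup.eq (s := B.subgroupOf A)).1 e
    simpa using D.mul_mem hx (Subgroup.mem_sup_left h2)

theorem FactorsGen.cls {U : Type} [Group U] {d : ℕ} {Z : Subgroup U} (h : FactorsGen d G)
    (e : G ≃* Z) : Cls d Z := h.cls_top.of_equiv (Subgroup.topEquiv.trans e)

/-- solvable groups lie in the class for `d = 1` -/
theorem factorsGen_one [Group.IsSolvable G] : FactorsGen 1 G := by
  intro A _ B _ hs
  have hc := IsSimpleGroup.comm_iff_isSolvable.2 (inferInstance : Group.IsSolvable (A ⧸ B))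
  have : IsMulCommutative (A ⧸ B) := ⟨⟨hc⟩⟩
  let _ : CommGroup (A ⧸ B) := { mul_comm := hc }
  obtain ⟨g, hg⟩ := IsCyclic.exists_generator (α := A ⧸ B)
  refine ⟨{g}, by simp, ?_⟩
  rw [Finset.coe_singleton, ← Subgroup.zpowers_eq_closure]
  exact eq_top_iff.2 fun x _ => hg x

/-- if all finite simple groups are generated by `d` elements, all finite groups lie in the
class -/
theorem factorsGen_of_simple {d : ℕ} (h : ∀ (S : Type) [Group S] [Finite S] [IsSimpleGroup S],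
    ∃ s : Finset S, s.card ≤ d ∧ Subgroup.closure (s : Set S) = ⊤) [Finite G] : FactorsGen d G :=
  fun A _ B _ _ => h (A ⧸ B)

end Pool.Agent.P.MP_f1a348_lc.FA
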