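import Mathlib

/-!
Groups whose composition factors have few generators.
-/

namespace Pool.Agent.P.MP_f1a348_lc.FA

/-- every composition factor of `G`, i.e. every simple quotient `A ⧸ B` of a subnormal subgroup
`A` of `G`, is generated by at most `d` elements -/
def FactorsGen (d : ℕ) (G : Type) [Group G] : Prop :=
  ∀ A : Subgroup G, A.IsSubnormal → ∀ (B : Subgroup A) [B.Normal], IsSimpleGroup (A ⧸ B) →
    ∃ s : Finset (A ⧸ B), s.card ≤ d ∧ Subgroup.closure (s : Set (A ⧸ B)) = ⊤

end Pool.Agent.P.MP_f1a348_lc.FA
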