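import Pool.Agent.P.MP_f1a348_lc.FA.Loop
import Pool.Agent.P.MP_f1a348_lc.FA.Bridge
import Pool.Agent.P.MP_f1a348_lc.LI.Small

/-!
The reduction from Latin square graphs followed by the group isomorphism test.
-/

namespace Pool.Agent.P.MP_f1a348_lc.FA

open Pool.Agent.Lib.Helper47 Pool.Agent.Lib.Helper33 GI LI

theorem red_spec' {n : ℕ} (X Y : SimpleGraph (Fin n)) :
    ∃ (G H : Type) (_ : Group G) (_ : Group H) (N : ℕ) (e : Fin N ≃ G) (e' : Fin N ≃ H),
      red (adjBits X ++ adjBits Y) = tbits e ++ tbits e' ∧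
      (N ≤ n ∧ Nonempty (X ≃g latinGraph G) ∨ N = 4) ∧
      (Nonempty (G ≃* H) ↔ IsGroupLatin X ∧ Nonempty (X ≃g Y)) := by
  obtain ⟨G, H, _, _, N, e, e', b1, b2, b3⟩ := red_spec X Y
  refine ⟨G, H, _, _, N, e, e', b1, ?_, b3⟩
  set x := adjBits X ++ adjBits Y with hx
  have four : ∀ u : List Bool, u.length = 128 → red x = u → N = 4 := fun u hu h => by
    have h1 := congrArg List.length (b1.symm.trans h)
    rw [List.length_append, length_tbits, length_tbits, hu] at h1
    have h2 : N ^ 3 = 4 ^ 3 := by ring_nf at h1 ⊢; omega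
    exact Nat.pow_left_injective (by norm_num) h2
  cases h1 : smallB x with
  | true => exact Or.inr (four (tbits e4 ++ tbits e4) (by simp [length_tbits]) (by simp [red, h1]))
  | false =>
    cases h2 : passB x with
    | false =>
      exact Or.inr (four (tbits e4 ++ tbits e22) (by simp [length_tbits]) (by simp [red, h1, h2]))
    | true =>
      refine b2.imp_left fun hN => ⟨hN, ?_⟩
      have hl : x.length = 2 * (n * n) := by
        rw [hx, List.length_append, length_adjBits, length_adjBits]; ring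
      have hv : vn x = n := by
        rw [vn, hl]
        refine countP_range_lt _ _ (by nlinarith [Nat.le_mul_self n]) _ (fun i => ?_)
        rw [Nat.ble_eq, Nat.mul_le_mul_left_iff two_pos, Nat.mul_self_le_mul_self_iff]
        rfl
      have vX : (gX x).1 = List.range n := by rw [gX, hv]
      have vY : (gY x).1 = List.range n := by rw [gY, hv]
      have aX : ∀ u v : Fin n, adj (gX x) u v = true ↔ X.Adj u v := fun u v => by
        rw [adj, vX, List.length_range, gX, hx, List.getD_append _ _ _ _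
          (by rw [length_adjBits]; nlinarith [u.2, v.2]), adjBits_getD]
      have aY : ∀ u v : Fin n, adj (gY x) u v = true ↔ Y.Adj u v := fun u v => by
        rw [adj, vY, List.length_range, gY, hv, hx, ← length_adjBits X, List.drop_left,
          adjBits_getD]
      have h3 := h2
      simp only [passB, Bool.and_eq_true, Nat.blt_eq] at h3
      obtain ⟨G₀, _, e₀, a1, ⟨a2⟩, a3⟩ := sound _ n vX X aX h3.1.2.1 h3.1.2.2
      obtain ⟨H₀, _, e₁, c1, -, c3⟩ := sound _ n vY Y aY h3.2.1 h3.2.2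
      generalize ord (gX x) = M at e₀ a1 a3
      generalize ord (gY x) = M' at e₁ c1 c3
      obtain rfl : M = M' := Nat.mul_self_inj.1 (a3.trans c3.symm)
      have h4 : tbits e ++ tbits e' = tbits e₀ ++ tbits e₁ := by
        rw [← b1]; simp [red, h1, h2, a1, c1]
      have h5 := congrArg List.length h4
      simp only [List.length_append, length_tbits] at h5
      obtain rfl : N = M := Nat.pow_left_injective (n := 3) (by norm_num) (by
        ring_nf at h5 ⊢; omega)
      have h6 := (List.append_inj h4 (by simp only [length_tbits])).1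
      obtain ⟨f⟩ := iso_of_mulEquiv (G := G₀) (H := G) ⟨e₀.symm.trans e, fun a b => by
        obtain ⟨a, rfl⟩ := e₀.surjective a
        obtain ⟨b, rfl⟩ := e₀.surjective b
        have := (tbits_getD e₀ a b (e₀.symm (e₀ a * e₀ b))).2 (by simp)
        rw [← h6, tbits_getD] at this
        simpa using this.symm⟩
      exact ⟨a2.trans f⟩

open Classical in
theorem graphs {K : ℕ} {iso : List Unit → List Unit → List (FP ℕ) → List (FP ℕ) → Bool}
    (h : IsoProg K iso) : ∃ (M : BTM) (C : ℕ), ∀ (d n : ℕ) (X Y : SimpleGraph (Fin n)),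
      (∀ (G : Type) [Group G], Nonempty (X ≃g latinGraph G) → FactorsGen d G) →
      M.Out (adjBits X ++ adjBits Y) [decide (IsGroupLatin X ∧ Nonempty (X ≃g Y))]
        (C * (n + 1) ^ (C * (d + 1))) := by
  obtain ⟨M₂, c, D, h₂⟩ := tables h
  have hx : PB List.length (fun x : List Bool => size x) :=
    (((PB.const 4).mul PB.self).add (PB.const 1)).mono (fun a => size_bits_le _)
  obtain ⟨M₁, t₁, a1, a2, h₁⟩ := (RT.of_PT (x := fun x => x) pt_red hx).exists_btm PB.self
  obtain ⟨p, hp⟩ := (a1.add ((PB.const 2).mul a2)).add (PB.const 2)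
  obtain ⟨c', D', hp'⟩ := poly_le_pow p
  refine ⟨M₁.comp M₂, c' + c * 5 ^ (D * 5) + 3 * D' + D, fun d n X Y hd => ?_⟩
  obtain ⟨G, H, _, _, N, e, e', b1, b2, b3⟩ := red_spec' X Y
  set C := c' + c * 5 ^ (D * 5) + 3 * D' + D with hC
  have hpos : 1 ≤ (n + 1) ^ (C * (d + 1)) := Nat.one_le_pow _ _ (Nat.succ_pos n)
  have c2 : M₂.Out (tbits e ++ tbits e') [decide (Nonempty (G ≃* H))]
      (c * 5 ^ (D * 5) * (n + 1) ^ (C * (d + 1))) := by
    rcases b2 with ⟨hN, hG⟩ | rfl
    · refine (h₂ d G H N e e' fun _ Z _ _ i => (hd G hG).cls i).mono ?_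
      refine Nat.mul_le_mul (Nat.le_mul_of_pos_right _ (by positivity)) ?_
      exact (Nat.pow_le_pow_left (Nat.succ_le_succ hN) _).trans
        (Nat.pow_le_pow_right (Nat.succ_pos n) (Nat.mul_le_mul_right _ (by omega)))
    · exact (h₂ 4 G H 4 e e' fun el Z r l _ => l ▸ cls_card r).mono
        (Nat.le_mul_of_pos_right _ hpos)
  rw [← b1, decide_eq_decide.2 b3] at c2
  refine ((h₁ _).comp c2).mono ?_
  have d1 := (hp (adjBits X ++ adjBits Y)).trans (hp' _)
  rw [show (adjBits X ++ adjBits Y).length = 2 * (n * n) by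
    rw [List.length_append, length_adjBits, length_adjBits]; ring] at d1
  have d2 : (2 * (n * n) + 1) ^ D' ≤ (n + 1) ^ (C * (d + 1)) :=
    calc (2 * (n * n) + 1) ^ D' ≤ ((n + 1) ^ 3) ^ D' :=
          Nat.pow_le_pow_left (by nlinarith [Nat.zero_le (n ^ 3), Nat.zero_le (n * n)]) D'
      _ = (n + 1) ^ (3 * D') := by rw [pow_mul]
      _ ≤ _ := Nat.pow_le_pow_right (Nat.succ_pos n)
          ((show 3 * D' ≤ C by omega).trans (Nat.le_mul_of_pos_right _ (Nat.succ_pos d)))
  have d3 := Nat.mul_le_mul_left c' d2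
  have d4 : (c' + c * 5 ^ (D * 5)) * (n + 1) ^ (C * (d + 1)) ≤ C * (n + 1) ^ (C * (d + 1)) :=
    Nat.mul_le_mul_right _ (by omega)
  rw [add_mul] at d4
  dsimp only at d1
  omega

/-- the final statement from the isomorphism test for the class -/
theorem final (h : ∃ K iso, IsoProg K iso) :
    ∃ (tm : Turing.FinTM2) (e₀ : tm.Γ tm.k₀ ≃ Bool) (e₁ : tm.Γ tm.k₁ ≃ Bool),
      (∀ k, Finite (tm.Γ k)) ∧ ∃ C : ℕ, ∀ (d n : ℕ) (X Y : SimpleGraph (Fin n)),
        (∀ (G : Type) [Group G], Nonempty (X ≃g latinGraph G) → FactorsGen d G) →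
        ∃ b : Bool,
          Nonempty (Turing.TM2OutputsInTime tm ((adjBits X ++ adjBits Y).map e₀.symm)
            (Option.some ([b].map e₁.symm)) (C * (n + 1) ^ (C * (d + 1)))) ∧
          (b = true ↔ IsGroupLatin X ∧ Nonempty (X ≃g Y)) ∧
          ∀ (G H : Type) [Group G] [Group H], Nonempty (X ≃g latinGraph G) →
            Nonempty (Y ≃g latinGraph H) → (b = true ↔ Nonempty (G ≃* H)) := by
  classical
  obtain ⟨K, iso, h⟩ := h
  obtain ⟨M, C, h⟩ := graphs h
  refine ⟨M.tm, M.e₀, M.e₁, M.fin, C, fun d n X Y hd => ⟨_, h d n X Y hd, by simp,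
    fun G H _ _ ⟨f⟩ ⟨g⟩ => ?_⟩⟩
  have : Finite (G × G) := Finite.of_equiv _ f.toEquiv
  have : Finite (H × H) := Finite.of_equiv _ g.toEquiv
  have : Finite G := Finite.prod_left G
  have : Finite H := Finite.prod_left H
  rw [decide_eq_true_iff, ← group_iso_iff]
  exact ⟨fun ⟨_, ⟨s⟩⟩ => ⟨(f.symm.trans s).trans g⟩,
    fun ⟨s⟩ => ⟨⟨G, _, ⟨f⟩⟩, ⟨(f.trans s).trans g.symm⟩⟩⟩

end Pool.Agent.P.MP_f1a348_lc.FA
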