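import Pool.Agent.P.MP_f1a348_lc.FA.Test
import Pool.Agent.P.MP_f1a348_lc.GI.Prog

/-!
Iterative deepening on the number of generators of the composition factors.
-/

namespace Pool.Agent.P.MP_f1a348_lc.FA

open Pool.Agent.Lib.Helper47 Pool.Agent.Lib.Helper33 GI

noncomputable section

/-- multiply the length by `(el.length + 1) ^ K` -/
def growK (K : ℕ) (el : List (FP ℕ)) (pad : List Unit) : List Unit := (grow1 el)^[K] pad

/-- the initial state -/
def init (K : ℕ) (x : List Bool) : Arg :=
  (growK K (start x).2.2.1 [()], [], (start x).2.2)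

/-- increase the parameter -/
def next (K : ℕ) (s : Arg) : Arg := (growK K s.2.2.1 s.1, () :: s.2.1, s.2.2)

/-- the first group lies in the class for the current parameter -/
def stop (s : Arg) : Bool := cdT s.1 s.2.1 s.2.2.1

end

theorem pt_growK {α : Type} [Enc α] (K : ℕ) {el : α → List (FP ℕ)} {pad : α → List Unit}
    (h1 : PT el) (h2 : PT pad) : PT (fun a => growK K (el a) (pad a)) := by
  induction K with
  | zero => exact h2
  | succ K ih =>
    simp only [growK, Function.iterate_succ_apply'] at ih ⊢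
    unfold grow1 at ih ⊢
    fun_prop

theorem length_growK (K : ℕ) (el : List (FP ℕ)) (pad : List Unit) :
    (growK K el pad).length = pad.length * (el.length + 1) ^ K := by
  induction K with
  | zero => simp [growK]
  | succ K ih =>
    rw [growK, Function.iterate_succ_apply', pow_succ, ← mul_assoc, ← ih]
    simp [grow1, growK, List.length_flatMap]

theorem pt_init (K : ℕ) : PT (init K) := by
  have h2 : PT (fun s : Arg => growK K s.2.2.1 [()]) := pt_growK K (by fun_prop) (PT.const _)
  have h3 : PT (fun s : Arg => ((growK K s.2.2.1 [()], [], s.2.2) : Arg)) := by fun_prop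
  exact h3.comp pt_start

theorem pt_next (K : ℕ) : PT (next K) := by
  have h2 : PT (fun s : Arg => growK K s.2.2.1 s.1) := pt_growK K (by fun_prop) (by fun_prop)
  unfold next; fun_prop

theorem pt_stop : PT stop := by unfold stop; fun_prop

theorem next_iter (K : ℕ) (x : List Bool) (k : ℕ) : ((next K)^[k] (init K x)).2.1.length = k ∧
    ((next K)^[k] (init K x)).1.length = ((start x).2.2.1.length + 1) ^ (K * (k + 1)) ∧
    ((next K)^[k] (init K x)).2.2 = (start x).2.2 := by
  induction k with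
  | zero => exact ⟨rfl, by simp [init, length_growK], rfl⟩
  | succ k ih =>
    rw [Function.iterate_succ_apply']
    generalize (next K)^[k] (init K x) = s at ih ⊢
    refine ⟨by simp [next, ih.1], ?_, ih.2.2⟩
    simp only [next, length_growK, ih.2.1, ih.2.2]
    ring

/-- inputs on which the loop ends -/
def Ends (K : ℕ) (x : List Bool) : Prop := ∃ k, stop ((next K)^[k] (init K x)) = true

open Classical in
/-- the least parameter that passes the test -/
noncomputable def lvl {K : ℕ} (x : {x // Ends K x}) : ℕ := Nat.find x.2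

/-- the budget -/
noncomputable def bdg {K : ℕ} (x : {x // Ends K x}) : ℕ :=
  x.1.length + lvl x + ((start x.1).2.2.1.length + 1) ^ (K * (lvl x + 1))

theorem loop_machine (K : ℕ) {f : Arg → Bool} (hf : PT f) :
    ∃ (M : BTM) (p : Polynomial ℕ), ∀ x : {x // Ends K x},
      M.Out x.1 [f ((next K)^[lvl x] (init K x.1))] (p.eval (bdg x)) := by
  classical
  have hlen : PB (bdg (K := K)) (fun x => x.1.length) :=
    PB.self.mono fun x => by unfold bdg; omega
  have hx : PB (bdg (K := K)) (fun x => size x.1) :=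
    (((PB.const 4).mul hlen).add (PB.const 1)).mono (fun a => size_bits_le _)
  have h0 : RT (bdg (K := K)) (fun x => x.1) (fun x => init K x.1) := RT.of_PT (pt_init K) hx
  have hs := h0.size_le hx
  have h1 : RT (bdg (K := K)) (fun x => init K x.1) (fun x => (next K)^[lvl x] (init K x.1)) := by
    have := pt_stop
    refine RT.whileN (go := fun s => !stop s) (pt_next K) (by fun_prop) lvl
      (fun x => 4 * bdg x + 4 + size (init K x.1)) (PB.self.mono fun x => by unfold bdg; omega)
      ((((PB.const 4).mul PB.self).add (PB.const 4)).add hs) (fun x i hi => ?_) (fun x => ?_)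
      (fun x i hi => ?_)
    · have := Nat.find_min x.2 hi
      simpa using this
    · have := Nat.find_spec x.2
      rw [Bool.not_eq_false']
      exact this
    · obtain ⟨e1, e2, e3⟩ := next_iter K x.1 i
      have e4 : ((start x.1).2.2.1.length + 1) ^ (K * (i + 1)) ≤
          ((start x.1).2.2.1.length + 1) ^ (K * (lvl x + 1)) :=
        Nat.pow_le_pow_right (Nat.succ_pos _) (Nat.mul_le_mul_left K (by omega))
      have e5 : (init K x.1).2.2 = (start x.1).2.2 := rfl
      rw [size_prod, size_prod ((next K)^[i] (init K x.1)).2, size_units, size_units, e1, e2, e3,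
        size_prod (init K x.1), size_prod (init K x.1).2, e5]
      unfold bdg
      omega
  have hf' : PT (fun s => [f s]) := by fun_prop
  have h2 := h1.trans (RT.of_PT hf' (h1.size_le hs))
  obtain ⟨M, t, ⟨p, hp⟩, _, h⟩ := (h0.trans h2).exists_btm hlen
  exact ⟨M, p, fun x => (h x).mono (hp x)⟩

open Classical in
theorem tables {K : ℕ} {iso : List Unit → List Unit → List (FP ℕ) → List (FP ℕ) → Bool}
    (h : IsoProg K iso) : ∃ (M : BTM) (c D : ℕ), ∀ (d : ℕ) (G H : Type) [Group G] [Group H]
      (N : ℕ) (e : Fin N ≃ G) (e' : Fin N ≃ H),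
      (∀ (el : List (FP ℕ)) (Z : Subgroup (FP ℕ)), Rep el Z → el.length = N → G ≃* Z → Cls d Z) →
      M.Out (tbits e ++ tbits e') [decide (Nonempty (G ≃* H))] (c * (N + 1) ^ (D * (d + 1))) := by
  obtain ⟨M, p, hM⟩ := loop_machine (K + 1) h.1
  obtain ⟨c, D, hp⟩ := poly_le_pow p
  refine ⟨M, c * 3 ^ D, (K + 4) * D, fun d G H _ _ N e e' hd => ?_⟩
  obtain ⟨Z, Z', r1, r2, ⟨i1⟩, ⟨i2⟩, l1, l2⟩ := start_rep e e'
  have hN : 0 < N := Fin.pos (e.symm 1)
  set x := tbits e ++ tbits e' with hx
  have hstop : ∀ k, stop ((next (K + 1))^[k] (init (K + 1) x)) = true ↔ Cls k Z := fun k => by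
    obtain ⟨e1, e2, e3⟩ := next_iter (K + 1) x k
    rw [stop, e3, cdT_iff r1, e1]
    rw [e1, e2]
    exact (Nat.pow_le_pow_left (Nat.le_succ _) k).trans
      (Nat.pow_le_pow_right (Nat.succ_pos _) (by nlinarith))
  have hk := (hstop d).2 (hd _ Z r1 l1 i1)
  let X : {x // Ends (K + 1) x} := ⟨x, d, hk⟩
  have hle : lvl X ≤ d := Nat.find_min' X.2 hk
  have h1 : bdg X + 1 ≤ 3 * (N + 1) ^ ((K + 4) * (d + 1)) := by
    have a1 : (N + 1) ^ ((K + 1) * (lvl X + 1)) ≤ (N + 1) ^ ((K + 4) * (d + 1)) :=
      Nat.pow_le_pow_right (Nat.succ_pos N) (Nat.mul_le_mul (by omega) (by omega))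
    have a2 : d + 1 ≤ (N + 1) ^ ((K + 4) * (d + 1)) :=
      Nat.lt_two_pow_self.le.trans ((Nat.pow_le_pow_left (Nat.succ_le_succ hN) _).trans
        (Nat.pow_le_pow_right (Nat.succ_pos N) (by nlinarith)))
    have a3 : x.length ≤ (N + 1) ^ ((K + 4) * (d + 1)) := by
      refine le_trans ?_ (Nat.pow_le_pow_right (Nat.succ_pos N) (show 4 ≤ _ by nlinarith))
      rw [hx, List.length_append, length_tbits, length_tbits]
      nlinarith [Nat.mul_pos hN hN, Nat.mul_pos (Nat.mul_pos hN hN) hN]
    have a4 : bdg X = x.length + lvl X + (N + 1) ^ ((K + 1) * (lvl X + 1)) := by rw [← l1]; rfl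
    omega
  have h2 : p.eval (bdg X) ≤ c * 3 ^ D * (N + 1) ^ ((K + 4) * D * (d + 1)) := by
    refine (hp _).trans ((Nat.mul_le_mul_left c (Nat.pow_le_pow_left h1 D)).trans (le_of_eq ?_))
    rw [mul_pow, ← pow_mul]
    ring
  refine BTM.Out.mono ?_ h2
  have h3 := hM X
  obtain ⟨e1, e2, e3⟩ := next_iter (K + 1) x (lvl X)
  have h4 := h.2 ((next (K + 1))^[lvl X] (init (K + 1) x)).1
    ((next (K + 1))^[lvl X] (init (K + 1) x)).2.1 _ _ Z Z' r1 r2 (l2.trans l1.symm)
    (by rw [e1]; exact (hstop _).1 (Nat.find_spec X.2)) (by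
      rw [e1, e2]
      exact Nat.pow_le_pow_right (Nat.succ_pos _) (Nat.mul_le_mul_right _ (Nat.le_succ K)))
  have h5 : decide (Nonempty (G ≃* H)) = iso ((next (K + 1))^[lvl X] (init (K + 1) x)).1
      ((next (K + 1))^[lvl X] (init (K + 1) x)).2.1 (start x).2.2.1 (start x).2.2.2 := by
    rw [Bool.eq_iff_iff, h4, decide_eq_true_iff]
    exact ⟨fun ⟨f⟩ => ⟨(i1.symm.trans f).trans i2⟩, fun ⟨f⟩ => ⟨(i1.trans f).trans i2.symm⟩⟩
  rw [h5, ← e3]
  exact h3

end Pool.Agent.P.MP_f1a348_lc.FA
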