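import Pool.Agent.P.MP_f1a348_lc.FA.JH
import Pool.Agent.P.MP_f1a348_lc.GI.PTA

/-!
The membership test for the class and the brute force test of a candidate isomorphism.
-/

namespace Pool.Agent.P.MP_f1a348_lc.FA

open GI Pool.Agent.Lib.Helper47

set_option linter.unusedSectionVars false

section defs
variable {U : Type} [Group U] [DecidableEq U]

/-- the normal closure of `M` and `g` in `A` -/
def ncl (A M : List U) (g : U) : List U := clo A (M ++ A.map (fun x => x * g * x⁻¹))

/-- enlarge `M` by `g` if the result is proper -/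
def mxStep (A M : List U) (g : U) : List U :=
  bif Nat.blt (ncl A M g).length A.length then ncl A M g else M

/-- a maximal normal subgroup -/
def mx (A : List U) : List U := A.foldl (mxStep A) (clo A [])

/-- the top factor is generated by `ud.length` elements -/
def genB (pad ud : List Unit) (A : List U) : Bool :=
  (tuples pad A ud).any (fun l => Nat.ble A.length (clo A (mx A ++ l)).length)

/-- one step down the composition series -/
def cdStep (pad ud : List Unit) (s : List U × Bool) : List U × Bool :=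
  (mx s.1, s.2 && genB pad ud s.1)

/-- the test for the class -/
def cdT (pad ud : List Unit) (el : List U) : Bool :=
  ((cdStep pad ud)^[el.length] (el, true)).2

/-- `σ` maps the first group homomorphically into the second -/
def homB (el el' : List U) (σ : FP U) : Bool :=
  el.all (fun x => el'.contains (σ.app x)) &&
    el.all (fun x => el.all (fun y => σ.app (x * y) == σ.app x * σ.app y))

theorem rep_eq {A B : List U} {a b : Subgroup U} (hA : Rep A a) (hB : Rep B b) (h : b ≤ a)
    (hl : A.length ≤ B.length) : b = a := by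
  have := hA.finite
  exact Subgroup.eq_of_le_of_card_ge h (by rw [hA.card, hB.card]; exact hl)

theorem ncl_spec {A M : List U} {a m : Subgroup U} {g : U} (hA : Rep A a) (hM : Rep M m)
    (hn : Nrm m a) (hg : g ∈ a) : ∃ n, Rep (ncl A M g) n ∧ Nrm n a ∧ m ≤ n ∧ g ∈ n ∧
      ∀ C, m ≤ C → Nrm C a → g ∈ C → n ≤ C := by
  have key : ∀ C, m ≤ C → Nrm C a → g ∈ C → ∀ y ∈ M ++ A.map (fun x => x * g * x⁻¹), y ∈ C := by
    intro C h1 h2 h3 y hy
    rcases List.mem_append.1 hy with hy | hy
    · exact h1 ((hM.mem y).1 hy)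
    · obtain ⟨x, hx, rfl⟩ := List.mem_map.1 hy
      exact h2.2 x ((hA.mem x).1 hx) g h3
  have hc : ∀ x ∈ a, x * g * x⁻¹ ∈ gen (M ++ A.map (fun x => x * g * x⁻¹)) := fun x hx =>
    mem_gen (List.mem_append_right _ (List.mem_map.2 ⟨x, (hA.mem x).2 hx, rfl⟩))
  have hm : ∀ x ∈ m, x ∈ gen (M ++ A.map (fun x => x * g * x⁻¹)) := fun x hx =>
    mem_gen (List.mem_append_left _ ((hM.mem x).2 hx))
  refine ⟨_, clo_rep hA (key a hn.1 (Nrm.refl a) hg),
    ⟨gen_le.2 (key a hn.1 (Nrm.refl a) hg), fun x hx => Cj.gen fun y hy => ?_⟩, hm,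
    by simpa using hc 1 a.one_mem, fun C h1 h2 h3 => gen_le.2 (key C h1 h2 h3)⟩
  rcases List.mem_append.1 hy with hy | hy
  · exact hm _ (hn.2 x hx y ((hM.mem y).1 hy))
  · obtain ⟨z, hz, rfl⟩ := List.mem_map.1 hy
    simpa [mul_assoc] using hc (x * z) (a.mul_mem hx ((hA.mem z).1 hz))

theorem mx_spec {A : List U} {a : Subgroup U} (hA : Rep A a) :
    ∃ m, Rep (mx A) m ∧ Nrm m a ∧ (a = ⊥ ∨ MaxN m a) := by
  have key : ∀ u : List U, (∀ g ∈ u, g ∈ a) → ∃ m, Rep (u.foldl (mxStep A) (clo A [])) m ∧
      Nrm m a ∧ (a = ⊥ ∨ m ≠ a) ∧ ∀ g ∈ u, g ∈ m ∨ ∀ C, m ≤ C → Nrm C a → g ∈ C → C = a := by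
    intro u
    induction u using List.reverseRecOn with
    | nil =>
      intro _
      refine ⟨⊥, gen_nil (U := U) ▸ clo_rep hA (by simp), Nrm.bot a, ?_, by simp⟩
      exact (eq_or_ne a ⊥).imp id Ne.symm
    | append_singleton u g ih =>
      intro hu
      obtain ⟨m, h1, h2, h3, h4⟩ := ih (fun x hx => hu x (by simp [hx]))
      rw [List.foldl_append, List.foldl_cons, List.foldl_nil]
      generalize u.foldl (mxStep A) (clo A []) = M at h1
      obtain ⟨n, n1, n2, n3, n4, n5⟩ := ncl_spec hA h1 h2 (hu g (by simp))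
      unfold mxStep
      cases hb : Nat.blt (ncl A M g).length A.length with
      | true =>
        rw [Nat.blt_eq] at hb
        refine ⟨n, n1, n2, Or.inr fun e => ?_, fun x hx => ?_⟩
        · have := hA.length_le n1 e.ge
          omega
        · rcases List.mem_append.1 hx with hx | hx
          · exact (h4 x hx).imp (fun h => n3 h) (fun h C hC => h C (n3.trans hC))
          · exact Or.inl (List.mem_singleton.1 hx ▸ n4)
      | false =>
        have hb' : A.length ≤ (ncl A M g).length := by
          rw [← not_lt, ← Nat.blt_eq, hb]; simp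
        refine ⟨m, h1, h2, h3, fun x hx => ?_⟩
        rcases List.mem_append.1 hx with hx | hx
        · exact h4 x hx
        · refine Or.inr fun C c1 c2 c3 => le_antisymm c2.1 ?_
          rw [List.mem_singleton.1 hx] at c3
          exact (rep_eq hA n1 n2.1 hb').ge.trans (n5 C c1 c2 c3)
  obtain ⟨m, h1, h2, h3, h4⟩ := key A (fun g hg => (hA.mem g).1 hg)
  refine ⟨m, h1, h2, h3.imp id fun h => ⟨h2, h, fun C c1 c2 => ?_⟩⟩
  by_cases hc : C ≤ m
  · exact Or.inl (le_antisymm hc c1)
  · obtain ⟨g, g1, g2⟩ := SetLike.not_le_iff_exists.1 hc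
    exact Or.inr ((h4 g ((hA.mem g).2 (c2.1 g1))).resolve_left g2 C c1 c2 g1)

theorem genB_iff {pad ud : List Unit} {A : List U} {a m : Subgroup U} (hA : Rep A a)
    (hM : Rep (mx A) m) (hm : m ≤ a) (hp : A.length ^ ud.length ≤ pad.length) :
    genB pad ud A = true ↔
      ∃ l : List U, l.length = ud.length ∧ (∀ x ∈ l, x ∈ a) ∧ m ⊔ gen l = a := by
  have key : ∀ l : List U, (∀ x ∈ l, x ∈ a) → Rep (clo A (mx A ++ l)) (m ⊔ gen l) := fun l hl => by
    rw [← hM.gen_eq, ← gen_append]
    refine clo_rep hA fun x hx => (List.mem_append.1 hx).elim (fun h => hm ((hM.mem x).1 h)) (hl x)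
  simp only [genB, List.any_eq_true, Nat.ble_eq]
  constructor
  · rintro ⟨l, h1, h2⟩
    obtain ⟨h3, h4⟩ := tuples_sound h1
    have hl : ∀ x ∈ l, x ∈ a := fun x hx => (hA.mem x).1 (h4 x hx)
    exact ⟨l, h3, hl, rep_eq hA (key l hl) (sup_le hm (gen_le.2 hl)) h2⟩
  · rintro ⟨l, h1, h2, h3⟩
    exact ⟨l, tuples_complete hp h1 (fun x hx => (hA.mem x).2 (h2 x hx)),
      hA.length_le (key l h2) h3.ge⟩

theorem cd_iter {pad ud : List Unit} {N : ℕ} (hp : N ^ ud.length ≤ pad.length) (n : ℕ) :
    ∀ (A : List U) (a : Subgroup U) (ok : Bool), Rep A a → A.length ≤ N → A.length ≤ n + 1 →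
      (((cdStep pad ud)^[n] (A, ok)).2 = true ↔ ok = true ∧ Cls ud.length a) := by
  have hb : ∀ (A : List U) (a : Subgroup U), Rep A a → (a = ⊥ ↔ A.length ≤ 1) := fun A a hA => by
    have := hA.finite
    rw [← hA.card, Subgroup.card_le_one_iff_eq_bot]
  induction n with
  | zero =>
    intro A a ok hA _ h1
    rw [(hb A a hA).2 h1]
    simp [cls_bot]
  | succ n ih =>
    intro A a ok hA h0 h1
    obtain ⟨m, m1, m2, m3⟩ := mx_spec hA
    have hl := m1.length_le hA m2.1
    have hg := genB_iff hA m1 m2.1 ((Nat.pow_le_pow_left h0 _).trans hp)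
    rw [Function.iterate_succ_apply, cdStep, ih _ m _ m1 (hl.trans h0), Bool.and_eq_true, hg,
      and_assoc]
    · refine and_congr_right fun _ => ?_
      rcases m3 with rfl | m3
      · refine iff_of_true ⟨⟨List.replicate ud.length 1, by simp, fun x hx => ?_, ?_⟩,
          (cls_bot _).sub m2.sub⟩ (cls_bot _)
        · rw [List.eq_of_mem_replicate hx]; exact Subgroup.one_mem _
        · exact le_bot_iff.1 (sup_le m2.1 (gen_le.2 fun x hx => by
            rw [List.eq_of_mem_replicate hx]; exact Subgroup.one_mem _))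
      · exact ⟨fun ⟨⟨l, l1, l2, l3⟩, h⟩ => h.up m3 l1 l2 l3,
          fun h => ⟨h a m Sub.top m3, h.sub m2.sub⟩⟩
    · rcases m3 with m3 | m3
      · have := (hb A a hA).1 m3
        omega
      · by_contra hc
        exact m3.2.1 (rep_eq hA m1 m2.1 (by omega))

theorem cdT_iff {pad ud : List Unit} {el : List U} {Z : Subgroup U} (h : Rep el Z)
    (hp : el.length ^ ud.length ≤ pad.length) : cdT pad ud el = true ↔ Cls ud.length Z := by
  rw [cdT, cd_iter hp el.length el Z true h le_rfl (Nat.le_succ _)]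
  simp

theorem homB_iff {el el' : List U} {Z Z' : Subgroup U} (h : Rep el Z) (h' : Rep el' Z')
    (σ : FP U) : homB el el' σ = true ↔
      (∀ x ∈ Z, σ.app x ∈ Z') ∧ ∀ x ∈ Z, ∀ y ∈ Z, σ.app (x * y) = σ.app x * σ.app y := by
  simp [homB, h.mem, h'.mem]

theorem equiv_of_homB {el el' : List U} {Z Z' : Subgroup U} (h : Rep el Z) (h' : Rep el' Z')
    (hl : el'.length = el.length) {σ : FP U} (hσ : homB el el' σ = true) : Nonempty (Z ≃* Z') := by
  obtain ⟨h1, h2⟩ := (homB_iff h h' σ).1 hσ
  have := h'.finite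
  let φ : Z →* Z' := MonoidHom.mk' (fun x => ⟨σ.app x, h1 x x.2⟩)
    (fun x y => Subtype.ext (h2 x x.2 y y.2))
  exact ⟨MulEquiv.ofBijective φ ((Nat.bijective_iff_injective_and_card φ).2
    ⟨fun x y e => Subtype.ext (σ.app_injective (congrArg Subtype.val e)),
      by rw [h.card, h'.card, hl]⟩)⟩

theorem mxStep_sublist {A M : List U} (g : U) (h : M.Sublist A) : (mxStep A M g).Sublist A := by
  unfold mxStep
  cases Nat.blt (ncl A M g).length A.length
  · exact h
  · exact clo_sublist _ _

theorem mx_sublist (A : List U) : (mx A).Sublist A := by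
  have : ∀ (u M : List U), M.Sublist A → (u.foldl (mxStep A) M).Sublist A := fun u => by
    induction u with
    | nil => exact fun _ h => h
    | cons g u ih => exact fun M h => ih _ (mxStep_sublist g h)
  exact this _ _ (clo_sublist _ _)
end defs

section time
variable {α U : Type} [Enc α] [Group U] [DecidableEq U] [Enc U] [PG U]

@[fun_prop] theorem pt_mxStep {A M : α → List U} {g : α → U} (h1 : PT A) (h2 : PT M) (h3 : PT g) :
    PT (fun a => mxStep (A a) (M a) (g a)) := by
  unfold mxStep ncl; fun_prop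

@[fun_prop] theorem pt_mx {A : α → List U} (h : PT A) : PT (fun a => mx (A a)) :=
  PT.foldl_inv (f := fun a M g => mxStep (A a) M g) (by fun_prop) h (by fun_prop)
    (fun a M => M.Sublist (A a)) (fun _ => clo_sublist _ _) (fun _ _ g _ h => mxStep_sublist g h)
    _ h.size_le (fun _ _ h => size_sublist h)

@[fun_prop] theorem pt_cdStep {pad ud : α → List Unit} {s : α → List U × Bool} (h1 : PT pad)
    (h2 : PT ud) (h3 : PT s) : PT (fun a => cdStep (pad a) (ud a) (s a)) := by
  unfold cdStep genB; fun_prop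

@[fun_prop] theorem pt_cdT {pad ud : α → List Unit} {el : α → List U} (h1 : PT pad)
    (h2 : PT ud) (h3 : PT el) : PT (fun a => cdT (pad a) (ud a) (el a)) := by
  have : PT (fun a => (cdStep (pad a) (ud a))^[(el a).length] (el a, true)) :=
    PT.iterate_inv (f := fun a s => cdStep (pad a) (ud a) s) (by fun_prop) h3 (by fun_prop)
      (fun a s => s.1.Sublist (el a)) (fun _ => List.Sublist.refl _)
      (fun _ _ h => (mx_sublist _).trans h) (fun a => size (el a) + 10)
      (h3.size_le.add (PB.const 10)) (fun a s h => by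
        have h1 := size_sublist h
        have h2 : size s.2 ≤ 5 := by cases s.2 <;> decide
        rw [size_prod]; omega)
  unfold cdT; fun_prop

@[fun_prop] theorem pt_homB {el el' : α → List U} {σ : α → FP U} (h1 : PT el) (h2 : PT el')
    (h3 : PT σ) : PT (fun a => homB (el a) (el' a) (σ a)) := by
  unfold homB; fun_prop
end time

/-- testing the candidate by brute force -/
theorem IsoCand.prog {K : ℕ} {cand : List Unit → List Unit → List (FP ℕ) → List (FP ℕ) → FP (FP ℕ)}
    (h : IsoCand K cand) : IsoProg K (fun pad ud el el' => homB el el' (cand pad ud el el')) := by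
  refine ⟨pt_homB (by fun_prop) (by fun_prop) h.1, fun pad ud el el' Z Z' r r' hl hc hp => ?_⟩
  exact ⟨equiv_of_homB r r' hl, fun e => (homB_iff r r' _).2 (h.2 pad ud el el' Z Z' r r' e hc hp)⟩

end Pool.Agent.P.MP_f1a348_lc.FA
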